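import Pool.Agent.Lib.MP_f8f5a4_an.Defs

set_option autoImplicit false

open Set Filter Topology

namespace Pool.Agent.Lib.MP_f8f5a4_an

namespace Order

variable {B : Diagram} (o : Order B)

theorem ext_path {x y : B.Path} (h : ∀ i, x i = y i) : x = y := Diagram.Path.ext (funext h)

theorem path_step (x : B.Path) (i : ℕ) : B.range (x i) = B.source (x (i + 1)) := x.step i

theorem level_source (x : B.Path) (i : ℕ) : B.level (B.source (x i)) = i := by
  induction i with
  | zero => exact x.start
  | succ i ih => rw [← path_step, B.level_range, ih]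

/-- The reversed order. -/
def rev : Order B where
  lt e f := o.lt f e
  irrefl := o.irrefl
  trans e f g h1 h2 := o.trans g f e h2 h1
  comparable_iff e f := by
    rw [← o.comparable_iff e f]
    constructor
    · rintro (h | h | h)
      · exact Or.inr (Or.inr h)
      · exact Or.inr (Or.inl h)
      · exact Or.inl h
    · rintro (h | h | h)
      · exact Or.inr (Or.inr h)
      · exact Or.inr (Or.inl h)
      · exact Or.inl h

theorem rev_isMax (e : B.E) : o.rev.IsMax e ↔ o.IsMin e := Iff.rfl

theorem rev_isMin (e : B.E) : o.rev.IsMin e ↔ o.IsMax e := Iff.rfl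

theorem range_eq_of_lt {e f : B.E} (h : o.lt e f) : B.range e = B.range f :=
  (o.comparable_iff e f).mp (Or.inl h)

theorem min_unique {e f : B.E} (he : o.IsMin e) (hf : o.IsMin f) (h : B.range e = B.range f) :
    e = f := by
  rcases (o.comparable_iff e f).mpr h with h | h | h
  · exact absurd h (hf e)
  · exact h
  · exact absurd h (he f)

theorem max_unique {e f : B.E} (he : o.IsMax e) (hf : o.IsMax f) (h : B.range e = B.range f) :
    e = f := o.rev.min_unique he hf h

/-- A nonempty set of edges with the same range has a least element. -/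
theorem exists_least {s : Set B.E} {v : B.V} (hs : ∀ e ∈ s, B.range e = v) (hne : s.Nonempty) :
    ∃ e ∈ s, ∀ f ∈ s, ¬ o.lt f e := by
  have hfin : s.Finite := (B.finite_in v).subset hs
  have : Finite s := hfin
  let r : s → s → Prop := fun a b => o.lt a.1 b.1
  have : IsTrans s r := ⟨fun a b c h1 h2 => o.trans _ _ _ h1 h2⟩
  have : Std.Irrefl r := ⟨fun a => o.irrefl a.1⟩
  have hwf : WellFounded r := Finite.wellFounded_of_trans_of_irrefl r
  obtain ⟨a, _, ha⟩ := hwf.has_min (univ : Set s) (by
    obtain ⟨e, he⟩ := hne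
    exact ⟨⟨e, he⟩, mem_univ _⟩)
  exact ⟨a.1, a.2, fun f hf => ha ⟨f, hf⟩ (mem_univ _)⟩

theorem exists_min {v : B.V} (hv : B.level v ≠ 0) : ∃ e, B.range e = v ∧ o.IsMin e := by
  obtain ⟨e, he, hmin⟩ := o.exists_least (s := {e | B.range e = v}) (v := v)
    (fun e he => he) (B.exists_in v hv)
  refine ⟨e, he, fun f hf => hmin f ?_ hf⟩
  exact (o.range_eq_of_lt hf).trans he

theorem exists_succ {e : B.E} (he : ¬ o.IsMax e) : ∃ f, o.IsSucc e f := by
  have : ∃ f, o.lt e f := by
    by_contra h
    push Not at h
    exact he h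
  obtain ⟨f0, hf0⟩ := this
  obtain ⟨f, hf, hmin⟩ := o.exists_least (s := {f | o.lt e f}) (v := B.range e)
    (fun f hf => (o.range_eq_of_lt hf).symm) ⟨f0, hf0⟩
  exact ⟨f, hf, fun g hg => hmin g hg.1 hg.2⟩

theorem succ_unique {e f g : B.E} (hf : o.IsSucc e f) (hg : o.IsSucc e g) : f = g := by
  have h : B.range f = B.range g :=
    (o.range_eq_of_lt hf.1).symm.trans (o.range_eq_of_lt hg.1)
  rcases (o.comparable_iff f g).mpr h with h | h | h
  · exact absurd ⟨hf.1, h⟩ (hg.2 f)
  · exact h
  · exact absurd ⟨hg.1, h⟩ (hf.2 g)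

/-- A choice of the minimal edge with range `v` (arbitrary if `v` has level `0`). -/
noncomputable def minEdge (v : B.V) : B.E :=
  open Classical in
  if h : B.level v ≠ 0 then (o.exists_min h).choose else (B.exists_out v).choose

theorem range_minEdge {v : B.V} (hv : B.level v ≠ 0) : B.range (o.minEdge v) = v := by
  unfold minEdge
  rw [dif_pos hv]
  exact (o.exists_min hv).choose_spec.1

theorem isMin_minEdge {v : B.V} (hv : B.level v ≠ 0) : o.IsMin (o.minEdge v) := by
  unfold minEdge
  rw [dif_pos hv]
  exact (o.exists_min hv).choose_spec.2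

/-- Replace the first `n` edges by minimal ones, backwards from the vertex `v`. -/
noncomputable def fill : ℕ → B.V → (ℕ → B.E) → (ℕ → B.E)
  | 0, _, x => x
  | n + 1, v, x => fill n (B.source (o.minEdge v)) (Function.update x n (o.minEdge v))

theorem fill_spec (n : ℕ) : ∀ (v : B.V) (x : ℕ → B.E), B.level v = n → B.source (x n) = v →
    (∀ i, n ≤ i → B.range (x i) = B.source (x (i + 1))) →
    (∀ i, n ≤ i → o.fill n v x i = x i) ∧ (∀ i, i < n → o.IsMin (o.fill n v x i)) ∧
      B.level (B.source (o.fill n v x 0)) = 0 ∧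
      ∀ i, B.range (o.fill n v x i) = B.source (o.fill n v x (i + 1)) := by
  induction n with
  | zero =>
    intro v x hv hx hp
    refine ⟨fun i _ => rfl, fun i hi => absurd hi (Nat.not_lt_zero i), ?_, fun i => hp i (Nat.zero_le i)⟩
    show B.level (B.source (x 0)) = 0
    rw [hx, hv]
  | succ n ih =>
    intro v x hv hx hp
    have hv0 : B.level v ≠ 0 := by omega
    have hr := o.range_minEdge hv0
    have hl : B.level (B.source (o.minEdge v)) = n := by
      have := B.level_range (o.minEdge v)
      rw [hr, hv] at this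
      omega
    have hup : ∀ i, i ≠ n → Function.update x n (o.minEdge v) i = x i :=
      fun i hi => Function.update_of_ne hi _ _
    have hup' : Function.update x n (o.minEdge v) n = o.minEdge v := Function.update_self _ _ _
    obtain ⟨h1, h2, h3, h4⟩ := ih (B.source (o.minEdge v)) (Function.update x n (o.minEdge v)) hl
      (by rw [hup']) (by
        intro i hi
        rcases eq_or_lt_of_le hi with h | h
        · subst h
          rw [hup', hup _ (by omega), hr, hx]
        · rw [hup _ (by omega), hup _ (by omega)]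
          exact hp i h)
    refine ⟨?_, ?_, h3, h4⟩
    · intro i hi
      show o.fill n _ _ i = x i
      rw [h1 i (by omega), hup _ (by omega)]
    · intro i hi
      show o.IsMin (o.fill n _ _ i)
      rcases eq_or_lt_of_le (Nat.lt_succ_iff.mp hi) with h | h
      · subst h
        rw [h1 i le_rfl, hup']
        exact o.isMin_minEdge hv0
      · exact h2 i h

theorem exists_extend (n : ℕ) (x : ℕ → B.E) (hl : B.level (B.source (x n)) = n)
    (hp : ∀ i, n ≤ i → B.range (x i) = B.source (x (i + 1))) :
    ∃ y : B.Path, (∀ i, n ≤ i → y i = x i) ∧ ∀ i, i < n → o.IsMin (y i) := by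
  obtain ⟨h1, h2, h3, h4⟩ := o.fill_spec n _ x hl rfl hp
  exact ⟨⟨o.fill n (B.source (x n)) x, h3, h4⟩, h1, h2⟩

theorem eq_below {x y : B.Path} (n : ℕ) (hx : ∀ i, i < n → o.IsMin (x i))
    (hy : ∀ i, i < n → o.IsMin (y i)) (h : B.source (x n) = B.source (y n)) :
    ∀ i, i < n → x i = y i := by
  induction n with
  | zero => intro i hi; omega
  | succ n ih =>
    have h1 : x n = y n := by
      refine o.min_unique (hx n (Nat.lt_succ_self n)) (hy n (Nat.lt_succ_self n)) ?_
      rw [path_step, path_step, h]
    intro i hi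
    rcases eq_or_lt_of_le (Nat.lt_succ_iff.mp hi) with h2 | h2
    · subst h2; exact h1
    · exact ih (fun i hi => hx i (by omega)) (fun i hi => hy i (by omega)) (by rw [h1]) i h2

theorem vershik_rev {x y : B.Path} (h : o.IsVershikImage x y) : o.rev.IsVershikImage y x := by
  obtain ⟨n, h1, h2, h3, h4, h5⟩ := h
  refine ⟨n, h5, ?_, ?_, fun i hi => (h4 i hi).symm, h1⟩
  · intro hm
    exact hm (x n) h3.1
  · exact ⟨h3.1, fun g hg => h3.2 g ⟨hg.2, hg.1⟩⟩

theorem vershik_exists {x : B.Path} (hx : x ∉ o.maxPaths) : ∃ y, o.IsVershikImage x y := by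
  classical
  have hex : ∃ n, ¬ o.IsMax (x n) := by
    by_contra h
    push Not at h
    exact hx h
  let n := Nat.find hex
  have hn : ¬ o.IsMax (x n) := Nat.find_spec hex
  have hlt : ∀ i, i < n → o.IsMax (x i) := fun i hi => by
    have := Nat.find_min hex hi
    push Not at this
    exact this
  obtain ⟨f, hf⟩ := o.exists_succ hn
  have hrf : B.range f = B.range (x n) := (o.range_eq_of_lt hf.1).symm
  have hlf : B.level (B.source f) = n := by
    have h1 := B.level_range f
    have h2 := B.level_range (x n)
    rw [hrf, h2, level_source] at h1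
    omega
  have hup : ∀ i, i ≠ n → Function.update x.edge n f i = x i :=
    fun i hi => Function.update_of_ne hi _ _
  have hup' : Function.update x.edge n f n = f := Function.update_self _ _ _
  obtain ⟨y, hy1, hy2⟩ := o.exists_extend n (Function.update x.edge n f) (by rw [hup', hlf]) (by
    intro i hi
    rcases eq_or_lt_of_le hi with h | h
    · subst h
      rw [hup', hup _ (by omega), hrf, path_step]
    · rw [hup _ (by omega), hup _ (by omega), path_step])
  refine ⟨y, n, hlt, hn, ?_, ?_, hy2⟩
  · rw [hy1 n le_rfl, hup']; exact hf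
  · intro i hi
    rw [hy1 i hi.le, hup _ (by omega)]

/-- Agreement of the images of two paths which agree on sufficiently many edges. -/
theorem vershik_local {x x' y y' : B.Path} {n N : ℕ} (h1 : ∀ i < n, o.IsMax (x i))
    (h2 : ¬ o.IsMax (x n)) (h3 : o.IsSucc (x n) (y n)) (h4 : ∀ i, n < i → y i = x i)
    (h5 : ∀ i < n, o.IsMin (y i)) (h' : o.IsVershikImage x' y') (hN : n ≤ N)
    (hx : ∀ i, i ≤ N → x' i = x i) : ∀ i, i ≤ N → y' i = y i := by
  obtain ⟨n', g1, g2, g3, g4, g5⟩ := h'
  have hnn : n' = n := by
    rcases lt_trichotomy n' n with h | h | h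
    · rw [hx n' (by omega)] at g2
      exact absurd (h1 n' h) g2
    · exact h
    · have := g1 n h
      rw [hx n hN] at this
      exact absurd this h2
  subst hnn
  rw [hx n' hN] at g3
  have hn : y' n' = y n' := o.succ_unique g3 h3
  intro i hi
  rcases lt_trichotomy i n' with h | h | h
  · exact o.eq_below n' g5 h5 (by rw [hn]) i h
  · rw [h, hn]
  · rw [g4 i h, h4 i h, hx i hi]

theorem vershik_unique {x y y' : B.Path} (h : o.IsVershikImage x y)
    (h' : o.IsVershikImage x y') : y = y' := by
  obtain ⟨n, h1, h2, h3, h4, h5⟩ := h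
  refine ext_path fun i => ?_
  exact (o.vershik_local (N := max n i) h1 h2 h3 h4 h5 h' (le_max_left _ _) (fun _ _ => rfl) i
    (le_max_right _ _)).symm

theorem not_max_of_vershik {x y : B.Path} (h : o.IsVershikImage x y) : x ∉ o.maxPaths := by
  obtain ⟨n, _, h2, _⟩ := h
  exact fun hx => h2 (hx n)

theorem not_min_of_vershik {x y : B.Path} (h : o.IsVershikImage x y) : y ∉ o.minPaths :=
  o.rev.not_max_of_vershik (o.vershik_rev h)

end Order

end Pool.Agent.Lib.MP_f8f5a4_an
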