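import Pool.Agent.Lib.MP_f8f5a4_an.Basic

set_option autoImplicit false

open Set Filter Topology

namespace Pool.Agent.Lib.MP_f8f5a4_an

variable {B : Diagram}

theorem countable_V (B : Diagram) : Countable B.V := by
  have : (⋃ n, {v | B.level v = n}) = (univ : Set B.V) := by
    ext v; simp
  rw [← countable_univ_iff, ← this]
  exact countable_iUnion B.level_countable

theorem countable_E (B : Diagram) : Countable B.E := by
  have := countable_V B
  have h : (⋃ v, {e | B.range e = v}) = (univ : Set B.E) := by
    ext v; simp
  rw [← countable_univ_iff, ← h]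
  exact countable_iUnion fun v => (B.finite_in v).countable

/-- The discrete topology on the edges. -/
instance instTopE (B : Diagram) : TopologicalSpace B.E := ⊥

instance instDiscE (B : Diagram) : DiscreteTopology B.E := ⟨rfl⟩

theorem isInducing_edge (B : Diagram) : IsInducing (Diagram.Path.edge : B.Path → (ℕ → B.E)) := by
  constructor
  apply le_antisymm
  · -- every generator of the induced topology is open for the cylinder topology
    rw [Pi.topologicalSpace, induced_iInf]
    refine le_iInf fun i => ?_
    rw [induced_compose]
    have hc : Continuous ((fun f : ℕ → B.E => f i) ∘ (Diagram.Path.edge : B.Path → (ℕ → B.E))) := by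
      rw [continuous_discrete_rng]
      intro e
      rw [isOpen_iff_forall_mem_open]
      intro x hx
      refine ⟨B.cylinder x (i + 1), ?_, TopologicalSpace.isOpen_generateFrom_of_mem ⟨x, i + 1, rfl⟩,
        fun _ _ => rfl⟩
      intro y hy
      have h1 : y i = x i := hy i (Nat.lt_succ_self i)
      have h2 : x i = e := hx
      show y i = e
      rw [h1, h2]
    exact continuous_iff_le_induced.mp hc
  · refine le_generateFrom ?_
    rintro C ⟨x, n, rfl⟩
    have : B.cylinder x n = ⋂ i ∈ Finset.range n, {y : B.Path | y i = x i} := by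
      ext y
      simp [Diagram.cylinder]
    rw [this]
    let _ : TopologicalSpace B.Path :=
      TopologicalSpace.induced (Diagram.Path.edge : B.Path → (ℕ → B.E)) inferInstance
    refine isOpen_biInter_finset fun i _ => ?_
    have hc : Continuous (fun y : B.Path => y.edge i) :=
      (continuous_apply i).comp continuous_induced_dom
    exact (isOpen_discrete {x i}).preimage hc

theorem continuous_coord (B : Diagram) (i : ℕ) : Continuous (fun x : B.Path => x i) :=
  (continuous_apply i).comp (isInducing_edge B).continuous

theorem isClosed_range_edge (B : Diagram) :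
    IsClosed (Set.range (Diagram.Path.edge : B.Path → (ℕ → B.E))) := by
  have : Set.range (Diagram.Path.edge : B.Path → (ℕ → B.E))
      = {x | B.level (B.source (x 0)) = 0} ∩ ⋂ i, {x | B.range (x i) = B.source (x (i + 1))} := by
    ext x
    simp only [Set.mem_range, mem_inter_iff, mem_iInter]
    constructor
    · rintro ⟨y, rfl⟩
      exact ⟨y.start, y.step⟩
    · rintro ⟨h1, h2⟩
      exact ⟨⟨x, h1, h2⟩, rfl⟩
  rw [this]
  let _ : TopologicalSpace B.V := ⊥
  have _ : DiscreteTopology B.V := ⟨rfl⟩
  refine IsClosed.inter ?_ (isClosed_iInter fun i => ?_)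
  · exact isClosed_eq (f := fun x : ℕ → B.E => B.level (B.source (x 0)))
      (continuous_of_discreteTopology.comp (continuous_of_discreteTopology.comp (continuous_apply 0)))
      continuous_const
  · exact isClosed_eq
      (continuous_of_discreteTopology.comp (continuous_apply i))
      (continuous_of_discreteTopology.comp (continuous_apply (i + 1)))

theorem isClosedEmbedding_edge (B : Diagram) :
    IsClosedEmbedding (Diagram.Path.edge : B.Path → (ℕ → B.E)) :=
  ⟨⟨isInducing_edge B, fun _ _ h => Diagram.Path.ext h⟩, isClosed_range_edge B⟩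

instance instPolishPath (B : Diagram) : PolishSpace B.Path := by
  have := countable_E B
  have : SecondCountableTopology B.E := inferInstance
  have : PolishSpace (ℕ → B.E) := inferInstance
  exact (isClosedEmbedding_edge B).polishSpace

instance instBorelPath (B : Diagram) : BorelSpace B.Path := ⟨rfl⟩

theorem isClosed_coord (S : Set B.E) : IsClosed {x : B.Path | ∀ i, x i ∈ S} := by
  have : {x : B.Path | ∀ i, x i ∈ S} = ⋂ i, {x : B.Path | x i ∈ S} := by
    ext x; simp
  rw [this]
  exact isClosed_iInter fun i => (isClosed_discrete S).preimage (continuous_coord B i)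

theorem isClosed_maxPaths (o : Order B) : IsClosed o.maxPaths := isClosed_coord {e | o.IsMax e}

theorem isClosed_minPaths (o : Order B) : IsClosed o.minPaths := isClosed_coord {e | o.IsMin e}

/-- If the sets of maximal and of minimal paths have the same cardinality, then the order
generates a Borel Vershik map. -/
theorem generates_of_equiv (o : Order B) (h : Nonempty (o.maxPaths ≃ o.minPaths)) :
    o.GeneratesBorelVershikMap := by
  classical
  obtain ⟨e0⟩ := h
  have : PolishSpace o.maxPaths := (isClosed_maxPaths o).polishSpace
  have : PolishSpace o.minPaths := (isClosed_minPaths o).polishSpace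
  let e : o.maxPaths ≃ᵐ o.minPaths := PolishSpace.Equiv.measurableEquiv e0
  choose V hV using fun (x : B.Path) (hx : x ∉ o.maxPaths) => o.vershik_exists hx
  let φ : B.Path → B.Path := fun x => if hx : x ∈ o.maxPaths then (e ⟨x, hx⟩ : B.Path) else V x hx
  have hφ1 : ∀ x (hx : x ∈ o.maxPaths), φ x = e ⟨x, hx⟩ := fun x hx => dif_pos hx
  have hφ2 : ∀ x (hx : x ∉ o.maxPaths), φ x = V x hx := fun x hx => dif_neg hx
  have hφ3 : ∀ x, x ∉ o.maxPaths → o.IsVershikImage x (φ x) := fun x hx => by
    rw [hφ2 x hx]; exact hV x hx
  refine ⟨φ, ⟨?_, ?_⟩, ?_, hφ3⟩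
  · -- injective
    intro x y hxy
    by_cases hx : x ∈ o.maxPaths
    · by_cases hy : y ∈ o.maxPaths
      · rw [hφ1 x hx, hφ1 y hy] at hxy
        have := e.injective (Subtype.ext hxy)
        exact congrArg Subtype.val this
      · exfalso
        have h1 := o.not_min_of_vershik (hφ3 y hy)
        rw [← hxy, hφ1 x hx] at h1
        exact h1 (e ⟨x, hx⟩).2
    · by_cases hy : y ∈ o.maxPaths
      · exfalso
        have h1 := o.not_min_of_vershik (hφ3 x hx)
        rw [hxy, hφ1 y hy] at h1
        exact h1 (e ⟨y, hy⟩).2
      · have h1 := o.vershik_rev (hφ3 x hx)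
        have h2 := o.vershik_rev (hφ3 y hy)
        rw [hxy] at h1
        exact o.rev.vershik_unique h1 h2
  · -- surjective
    intro y
    by_cases hy : y ∈ o.minPaths
    · refine ⟨e.symm ⟨y, hy⟩, ?_⟩
      rw [hφ1 _ (e.symm ⟨y, hy⟩).2]
      simp
    · obtain ⟨x, hx⟩ := o.rev.vershik_exists (x := y) hy
      have hx' : o.IsVershikImage x y := o.rev.vershik_rev hx
      exact ⟨x, (o.vershik_unique hx' (hφ3 x (o.not_max_of_vershik hx'))).symm⟩
  · -- measurable
    refine measurable_of_restrict_of_restrict_compl (isClosed_maxPaths o).measurableSet ?_ ?_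
    · have : (o.maxPaths).domRestrict φ = fun x => ((e x : o.minPaths) : B.Path) := by
        funext x
        exact hφ1 x.1 x.2
      rw [this]
      exact measurable_subtype_coe.comp e.measurable
    · refine Continuous.measurable ?_
      rw [(isInducing_edge B).continuous_iff, continuous_pi_iff]
      intro i
      rw [continuous_discrete_rng]
      intro b
      rw [isOpen_iff_mem_nhds]
      intro x hx
      obtain ⟨n, h1, h2, h3, h4, h5⟩ := hφ3 x.1 x.2
      have hopen : IsOpen {x' : (o.maxPathsᶜ : Set B.Path) | ∀ j ∈ Finset.range (max n i + 1), x'.1 j = x.1 j} := by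
        have : {x' : (o.maxPathsᶜ : Set B.Path) | ∀ j ∈ Finset.range (max n i + 1), x'.1 j = x.1 j}
            = ⋂ j ∈ Finset.range (max n i + 1), {x' : (o.maxPathsᶜ : Set B.Path) | x'.1 j = x.1 j} := by
          ext x'; simp
        rw [this]
        refine isOpen_biInter_finset fun j _ => ?_
        exact (isOpen_discrete {x.1 j}).preimage ((continuous_coord B j).comp continuous_subtype_val)
      refine mem_nhds_iff.mpr ⟨_, ?_, hopen, fun j _ => rfl⟩
      intro x' hx'
      have h6 := o.vershik_local (N := max n i) h1 h2 h3 h4 h5 (hφ3 x'.1 x'.2) (le_max_left _ _)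
        (fun j hj => hx' j (Finset.mem_range.mpr (by omega))) i (le_max_right _ _)
      show (φ x'.1) i = b
      rw [h6]
      exact hx

end Pool.Agent.Lib.MP_f8f5a4_an
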