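import Mathlib

/-!
# Generalized Bratteli diagrams, orders and Vershik maps

The vertices of all levels are collected in one type `V` with a level function, the edges of all
levels in one type `E` (the edge set `E_i` is the set of edges whose source has level `i`).
-/

set_option autoImplicit false

namespace Pool.Agent.Lib.MP_f8f5a4_an

/-- A generalized Bratteli diagram, as a graded graph: `V_n` is the set of vertices of level `n`,
countably infinite for each `n`; every edge goes from some level to the next one; every vertex is
the source of an edge; every vertex of positive level is the range of an edge, and of only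
finitely many edges. -/
structure Diagram where
  /-- vertices -/
  V : Type
  /-- edges (parallel edges are allowed) -/
  E : Type
  /-- the level of a vertex -/
  level : V → ℕ
  /-- source of an edge -/
  source : E → V
  /-- range of an edge -/
  range : E → V
  level_range : ∀ e, level (range e) = level (source e) + 1
  level_countable : ∀ n, {v | level v = n}.Countable
  level_infinite : ∀ n, {v | level v = n}.Infinite
  exists_out : ∀ v, ∃ e, source e = v
  exists_in : ∀ v, level v ≠ 0 → ∃ e, range e = v
  finite_in : ∀ v, {e | range e = v}.Finite

/-- The infinite paths `(x_0, x_1, ...)` starting at level `0`. -/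
@[ext]
structure Diagram.Path (B : Diagram) where
  /-- the sequence of edges of the path -/
  edge : ℕ → B.E
  start : B.level (B.source (edge 0)) = 0
  step : ∀ i, B.range (edge i) = B.source (edge (i + 1))

/-- `x i` is the `i`-th edge of the path `x`. -/
instance (B : Diagram) : CoeFun B.Path (fun _ => ℕ → B.E) := ⟨Diagram.Path.edge⟩

/-- The cylinder set of all paths having the same first `n` edges as the path `x`. -/
def Diagram.cylinder (B : Diagram) (x : B.Path) (n : ℕ) : Set B.Path :=
  {y | ∀ i < n, y i = x i}

/-- The topology of the path space is generated by the cylinder sets. -/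
instance (B : Diagram) : TopologicalSpace B.Path :=
  TopologicalSpace.generateFrom {C | ∃ x n, C = B.cylinder x n}

/-- The path space carries its Borel sigma-algebra. -/
instance (B : Diagram) : MeasurableSpace B.Path := borel B.Path

/-- An order on the diagram: a strict partial order on the edges in which two edges are
comparable (or equal) exactly when they have the same range, that is, a linear order on
`r⁻¹(v)` for each vertex `v`, edges with different ranges being incomparable. -/
structure Order (B : Diagram) where
  /-- `lt e f` means `e < f` -/
  lt : B.E → B.E → Prop
  irrefl : ∀ e, ¬ lt e e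
  trans : ∀ e f g, lt e f → lt f g → lt e g
  comparable_iff : ∀ e f, (lt e f ∨ e = f ∨ lt f e) ↔ B.range e = B.range f

namespace Order

variable {B : Diagram} (o : Order B)

/-- `e` is maximal in its class `r⁻¹(r(e))`. -/
def IsMax (e : B.E) : Prop := ∀ f, ¬ o.lt e f

/-- `e` is minimal in its class `r⁻¹(r(e))`. -/
def IsMin (e : B.E) : Prop := ∀ f, ¬ o.lt f e

/-- `f` is the successor of `e` in its class `r⁻¹(r(e))`. -/
def IsSucc (e f : B.E) : Prop := o.lt e f ∧ ∀ g, ¬ (o.lt e g ∧ o.lt g f)

/-- The set of infinite maximal paths. -/
def maxPaths : Set B.Path := {x | ∀ i, o.IsMax (x i)}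

/-- The set of infinite minimal paths. -/
def minPaths : Set B.Path := {x | ∀ i, o.IsMin (x i)}

/-- `y` is the image of the path `x` under the Vershik map of the ordered diagram: for the least
`n` such that `x_n` is not maximal, `y_n` is the successor of `x_n`, the later edges of `x` and
`y` agree, and the edges of `y` before the `n`-th are minimal. -/
def IsVershikImage (x y : B.Path) : Prop :=
  ∃ n, (∀ i < n, o.IsMax (x i)) ∧ ¬ o.IsMax (x n) ∧ o.IsSucc (x n) (y n) ∧
    (∀ i, n < i → y i = x i) ∧ ∀ i < n, o.IsMin (y i)

/-- The order generates a Borel Vershik map: the Vershik map, defined on the non-maximal paths,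
extends to a Borel bijection of the path space onto itself. -/
def GeneratesBorelVershikMap : Prop :=
  ∃ φ : B.Path → B.Path, Function.Bijective φ ∧ Measurable φ ∧
    ∀ x, x ∉ o.maxPaths → o.IsVershikImage x (φ x)

end Order

end Pool.Agent.Lib.MP_f8f5a4_an
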