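import Pool.Agent.Lib.MP_f8f5a4_an.ZeroOne

set_option autoImplicit false

open Set Filter Topology

namespace Pool.Agent.Lib.MP_f8f5a4_an

namespace Order

variable {B : Diagram} (o : Order B)

/-- The order obtained from `o` by reversing it at all vertices `v` with `ω v = true`. -/
def flip (ω : B.V → Bool) : Order B where
  lt e f := if ω (B.range e) = true then o.lt f e else o.lt e f
  irrefl e := by
    split_ifs <;> exact o.irrefl e
  trans e f g h1 h2 := by
    by_cases h : ω (B.range e) = true
    · rw [if_pos h] at h1 ⊢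
      have hr := o.range_eq_of_lt h1
      rw [← hr] at h
      rw [if_pos h] at h2
      exact o.trans _ _ _ h2 h1
    · rw [if_neg h] at h1 ⊢
      have hr := o.range_eq_of_lt h1
      rw [hr] at h
      rw [if_neg h] at h2
      exact o.trans _ _ _ h1 h2
  comparable_iff e f := by
    rw [← o.comparable_iff e f]
    constructor
    · rintro (h | h | h)
      · split_ifs at h
        · exact Or.inr (Or.inr h)
        · exact Or.inl h
      · exact Or.inr (Or.inl h)
      · split_ifs at h
        · exact Or.inl h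
        · exact Or.inr (Or.inr h)
    · intro h
      by_cases hef : B.range e = B.range f
      · rw [hef]
        split_ifs
        · rcases h with h | h | h
          · exact Or.inr (Or.inr h)
          · exact Or.inr (Or.inl h)
          · exact Or.inl h
        · exact h
      · exact absurd ((o.comparable_iff e f).mp h) hef

theorem flip_lt_iff (ω : B.V → Bool) {e f : B.E} :
    (o.flip ω).lt e f ↔ if ω (B.range e) = true then o.lt f e else o.lt e f := Iff.rfl

theorem flip_isMin (ω : B.V → Bool) (e : B.E) :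
    (o.flip ω).IsMin e ↔ if ω (B.range e) = true then o.IsMax e else o.IsMin e := by
  constructor
  · intro h
    split_ifs with hω
    · intro f hf
      refine h f ?_
      rw [flip_lt_iff, ← o.range_eq_of_lt hf, if_pos hω]
      exact hf
    · intro f hf
      refine h f ?_
      rw [flip_lt_iff, o.range_eq_of_lt hf, if_neg hω]
      exact hf
  · intro h f hf
    have hr := (o.flip ω).range_eq_of_lt hf
    rw [flip_lt_iff, hr] at hf
    split_ifs at h hf
    · exact h f hf
    · exact h f hf

theorem flip_isMax (ω : B.V → Bool) (e : B.E) :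
    (o.flip ω).IsMax e ↔ if ω (B.range e) = true then o.IsMin e else o.IsMax e := by
  constructor
  · intro h
    split_ifs with hω
    · intro f hf
      refine h f ?_
      rw [flip_lt_iff, if_pos hω]
      exact hf
    · intro f hf
      refine h f ?_
      rw [flip_lt_iff, if_neg hω]
      exact hf
  · intro h f hf
    rw [flip_lt_iff] at hf
    split_ifs at h hf
    · exact h f hf
    · exact h f hf

/-- Minimal paths of the flipped order. -/
def P (ω : B.V → Bool) : Set B.Path := (o.flip ω).minPaths

/-- The opposite choice. -/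
def neg (ω : B.V → Bool) : B.V → Bool := fun v => !(ω v)

theorem maxPaths_flip (ω : B.V → Bool) : (o.flip ω).maxPaths = o.P (neg ω) := by
  ext x
  show (∀ i, (o.flip ω).IsMax (x i)) ↔ ∀ i, (o.flip (neg ω)).IsMin (x i)
  refine forall_congr' fun i => ?_
  rw [flip_isMin, flip_isMax]
  unfold neg
  cases ω (B.range (x i)) <;> simp

theorem isMin_congr {ω ω' : B.V → Bool} {e : B.E} (h : ω (B.range e) = ω' (B.range e)) :
    (o.flip ω).IsMin e ↔ (o.flip ω').IsMin e := by
  rw [flip_isMin, flip_isMin, h]

/-- Transfer of paths which are minimal from level `n` on. -/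
theorem transfer {S : Set B.Path} {ω ω' : B.V → Bool} (n : ℕ) (hS : S ⊆ o.P ω)
    (h : ∀ x ∈ S, ∀ i, n ≤ i → (o.flip ω').IsMin (x i)) :
    ∃ f : B.Path → B.Path, MapsTo f S (o.P ω') ∧ InjOn f S := by
  choose f hf1 hf2 using fun (x : B.Path) =>
    (o.flip ω').exists_extend n x.edge (level_source x n) (fun i _ => path_step x i)
  refine ⟨f, ?_, ?_⟩
  · intro x hx i
    rcases lt_or_ge i n with hi | hi
    · exact hf2 x i hi
    · rw [hf1 x i hi]
      exact h x hx i hi
  · intro x hx y hy hxy
    have hge : ∀ i, n ≤ i → x i = y i := fun i hi => by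
      rw [← hf1 x i hi, ← hf1 y i hi, hxy]
    refine ext_path fun i => ?_
    rcases lt_or_ge i n with hi | hi
    · exact (o.flip ω).eq_below n (fun j _ => hS hx j) (fun j _ => hS hy j)
        (by rw [hge n le_rfl]) i hi
    · exact hge i hi

theorem encard_le_of_finite {ω ω' : B.V → Bool} (h : {v | ω v ≠ ω' v}.Finite) :
    (o.P ω).encard ≤ (o.P ω').encard := by
  obtain ⟨n, hn⟩ : ∃ n, ∀ v, ω v ≠ ω' v → B.level v ≤ n := by
    obtain ⟨n, hn⟩ := (h.image B.level).bddAbove
    exact ⟨n, fun v hv => hn ⟨v, hv, rfl⟩⟩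
  obtain ⟨f, hf1, hf2⟩ := o.transfer (S := o.P ω) (ω := ω) (ω' := ω') n Subset.rfl (by
    intro x hx i hi
    have : ω (B.range (x i)) = ω' (B.range (x i)) := by
      by_contra hne
      have h1 := hn _ hne
      rw [path_step, level_source] at h1
      omega
    exact (o.isMin_congr this).mp (hx i))
  exact Set.encard_le_encard_of_injOn hf1 hf2

/-- The set of choices for which some minimal path passes through the vertex `v`. -/
def Bset (v : B.V) : Set (B.V → Bool) := {ω | ∃ x ∈ o.P ω, B.source (x (B.level v)) = v}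

theorem mem_Bset_iff (v : B.V) (ω : B.V → Bool) :
    ω ∈ o.Bset v ↔ ∃ e, B.source e = v ∧ (o.flip ω).IsMin e ∧ ω ∈ o.Bset (B.range e) := by
  constructor
  · rintro ⟨x, hx, hv⟩
    refine ⟨x (B.level v), hv, hx _, x, hx, ?_⟩
    rw [path_step, level_source]
  · rintro ⟨e, he, hmin, x, hx, hr⟩
    refine ⟨x, hx, ?_⟩
    rw [B.level_range, he] at hr
    have h1 : x (B.level v) = e := by
      refine (o.flip ω).min_unique (hx _) hmin ?_
      rw [path_step, hr]
    rw [h1, he]

theorem isOpen_isMin (e : B.E) : IsOpen {ω : B.V → Bool | (o.flip ω).IsMin e} := by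
  have hc : Continuous (fun ω : B.V → Bool => ω (B.range e)) := continuous_apply _
  have : {ω : B.V → Bool | (o.flip ω).IsMin e}
      = (fun ω : B.V → Bool => ω (B.range e)) ⁻¹'
        {b | if b = true then o.IsMax e else o.IsMin e} := by
    ext ω
    exact o.flip_isMin ω e
  rw [this]
  exact (isOpen_discrete _).preimage hc

theorem exists_open_Bset (o : Order B) :
    ∃ G : B.V → Set (B.V → Bool), (∀ v, IsOpen (G v)) ∧
      ∀ᶠ ω in residual (B.V → Bool), ∀ v, ω ∈ o.Bset v ↔ ω ∈ G v := by
  have hcV := countable_V B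
  choose G hG1 hG2 hG3 using fun v => exists_envelope (o.Bset v)
  refine ⟨G, hG1, ?_⟩
  have hall : ∀ᶠ ω in residual (B.V → Bool), ∀ v, ω ∈ o.Bset v → ω ∈ G v :=
    eventually_countable_forall.mpr hG2
  have hstep : ∀ᶠ ω in residual (B.V → Bool), ∀ v, ω ∈ G v →
      ∃ e, B.source e = v ∧ (o.flip ω).IsMin e ∧ ω ∈ G (B.range e) := by
    rw [eventually_countable_forall]
    intro v
    let O : Set (B.V → Bool) := ⋃ e ∈ {e | B.source e = v},
      {ω : B.V → Bool | (o.flip ω).IsMin e} ∩ G (B.range e)
    have hO : IsOpen O := isOpen_biUnion fun e _ => (o.isOpen_isMin e).inter (hG1 _)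
    have hsub : G v ⊆ closure O := by
      by_contra hns
      obtain ⟨ω1, h1, h2⟩ := Set.not_subset.mp hns
      have hF : IsOpen (G v ∩ (closure O)ᶜ) := (hG1 v).inter isClosed_closure.isOpen_compl
      refine hG3 v _ hF inter_subset_left ⟨ω1, h1, h2⟩ ?_
      filter_upwards [hall] with ω hω hωF hωB
      obtain ⟨e, he, hmin, hBe⟩ := (o.mem_Bset_iff v ω).mp hωB
      exact hωF.2 (subset_closure (mem_biUnion (x := e) he ⟨hmin, hω _ hBe⟩))
    filter_upwards [residual_not_frontier hO] with ω hω hωG
    have h3 := hω (hsub hωG)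
    obtain ⟨e, he, h4⟩ := mem_iUnion₂.mp h3
    exact ⟨e, he, h4.1, h4.2⟩
  filter_upwards [hall, hstep] with ω h1 h2 v
  refine ⟨h1 v, fun hv => ?_⟩
  -- construct the path
  classical
  choose nxt hn1 hn2 hn3 using h2
  let step : {v : B.V // ω ∈ G v} → {v : B.V // ω ∈ G v} :=
    fun w => ⟨B.range (nxt w.1 w.2), hn3 w.1 w.2⟩
  let z : ℕ → {v : B.V // ω ∈ G v} := fun k => step^[k] ⟨v, hv⟩
  have hz : ∀ k, (z (k + 1)).1 = B.range (nxt (z k).1 (z k).2) := by
    intro k
    show (step^[k + 1] ⟨v, hv⟩).1 = _
    rw [Function.iterate_succ_apply']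
  have hlev : ∀ k, B.level (z k).1 = B.level v + k := by
    intro k
    induction k with
    | zero => rfl
    | succ k ih =>
      rw [hz, B.level_range, hn1, ih]
      omega
  let n := B.level v
  let x : ℕ → B.E := fun i => nxt (z (i - n)).1 (z (i - n)).2
  have hxn : B.source (x n) = v := by
    show B.source (nxt (z (n - n)).1 (z (n - n)).2) = v
    rw [hn1, Nat.sub_self]
    rfl
  obtain ⟨y, hy1, hy2⟩ := (o.flip ω).exists_extend n x (by rw [hxn]) (by
    intro i hi
    show B.range (nxt (z (i - n)).1 (z (i - n)).2) = B.source (nxt (z (i + 1 - n)).1 (z (i + 1 - n)).2)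
    rw [hn1, ← hz]
    have : i + 1 - n = i - n + 1 := by omega
    rw [this])
  refine ⟨y, fun i => ?_, ?_⟩
  · rcases lt_or_ge i n with hi | hi
    · exact hy2 i hi
    · rw [hy1 i hi]
      exact hn2 _ _
  · rw [hy1 n le_rfl, hxn]

/-- Counting minimal paths through counting vertices. -/
theorem le_encard_iff (ω : B.V → Bool) (k : ℕ) :
    (k : ℕ∞) ≤ (o.P ω).encard ↔ ∃ (n : ℕ) (T : Finset B.V), T.card = k ∧
      (∀ v ∈ T, B.level v = n) ∧ ∀ v ∈ T, ω ∈ o.Bset v := by
  classical
  constructor
  · intro hk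
    obtain ⟨t, ht, htk⟩ := Set.exists_subset_encard_eq hk
    have htf : t.Finite := Set.finite_of_encard_eq_coe htk
    lift t to Finset B.Path using htf
    rw [Set.encard_coe_eq_coe_finsetCard] at htk
    have htk' : t.card = k := by exact_mod_cast htk
    have hev : ∀ᶠ n in atTop, ∀ x ∈ t, ∀ y ∈ t, x ≠ y → B.source (x n) ≠ B.source (y n) := by
      rw [Filter.eventually_all_finset]
      intro x hx
      rw [Filter.eventually_all_finset]
      intro y hy
      by_cases hxy : x = y
      · exact Eventually.of_forall fun n h => absurd hxy h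
      · obtain ⟨i, hi⟩ : ∃ i, x i ≠ y i := by
          by_contra h
          push Not at h
          exact hxy (ext_path h)
        filter_upwards [eventually_gt_atTop i] with n hn _ hs
        exact hi ((o.flip ω).eq_below n (fun j _ => ht hx j) (fun j _ => ht hy j) hs i hn)
    obtain ⟨n, hn⟩ := hev.exists
    refine ⟨n, t.image (fun x => B.source (x n)), ?_, ?_, ?_⟩
    · rw [Finset.card_image_of_injOn, htk']
      intro x hx y hy hxy
      by_contra hne
      exact hn x hx y hy hne hxy
    · intro v hv
      obtain ⟨x, _, rfl⟩ := Finset.mem_image.mp hv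
      exact level_source x n
    · intro v hv
      obtain ⟨x, hx, rfl⟩ := Finset.mem_image.mp hv
      refine ⟨x, ht hx, ?_⟩
      rw [level_source]
  · rintro ⟨n, T, hT, hlev, hB⟩
    rcases T.eq_empty_or_nonempty with hTe | ⟨v0, hv0⟩
    · subst hTe
      rw [← hT]
      simp
    have : Nonempty B.Path := ⟨(hB v0 hv0).choose⟩
    choose! f hf1 hf2 using hB
    have h1 : MapsTo f (T : Set B.V) (o.P ω) := fun v hv => hf1 v hv
    have h2 : InjOn f (T : Set B.V) := by
      intro v hv w hw hvw
      have e1 := hf2 v hv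
      have e2 := hf2 w hw
      rw [hlev v hv] at e1
      rw [hlev w hw, ← hvw] at e2
      exact e1.symm.trans e2
    have := Set.encard_le_encard_of_injOn h1 h2
    rw [Set.encard_coe_eq_coe_finsetCard, hT] at this
    exact this

theorem exists_of_residual {p : (B.V → Bool) → Prop}
    (h : ∀ᶠ ω in residual (B.V → Bool), p ω) : ∃ ω, p ω :=
  (dense_of_mem_residual h).nonempty

/-- For a generic choice the numbers of minimal paths and of maximal paths agree (in `ℕ∞`). -/
theorem exists_generic (o : Order B) : ∃ ω : B.V → Bool, (o.P ω).encard = (o.P (neg ω)).encard := by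
  have hcV := countable_V B
  obtain ⟨G, hG1, hG2⟩ := exists_open_Bset o
  have h01 : ∀ k : ℕ, (∀ᶠ ω in residual (B.V → Bool), (k : ℕ∞) ≤ (o.P ω).encard) ∨
      ∀ᶠ ω in residual (B.V → Bool), ¬ (k : ℕ∞) ≤ (o.P ω).encard := by
    intro k
    let O : Set (B.V → Bool) := ⋃ (n : ℕ), ⋃ (T : Finset B.V),
      ⋃ (_ : T.card = k ∧ ∀ v ∈ T, B.level v = n), ⋂ v ∈ T, G v
    have hO : IsOpen O := isOpen_iUnion fun n => isOpen_iUnion fun T => isOpen_iUnion fun _ =>
      isOpen_biInter_finset fun v _ => hG1 v
    refine zero_one (A := {ω | (k : ℕ∞) ≤ (o.P ω).encard}) hO ?_ ?_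
    · filter_upwards [hG2] with ω hω
      show (k : ℕ∞) ≤ (o.P ω).encard ↔ ω ∈ O
      rw [le_encard_iff]
      simp only [O, mem_iUnion, mem_iInter]
      constructor
      · rintro ⟨n, T, h1, h2, h3⟩
        exact ⟨n, T, ⟨h1, h2⟩, fun v hv => (hω v).mp (h3 v hv)⟩
      · rintro ⟨n, T, ⟨h1, h2⟩, h3⟩
        exact ⟨n, T, h1, h2, fun v hv => (hω v).mpr (h3 v hv)⟩
    · intro ω ω' hfin hω
      exact le_trans (show (k : ℕ∞) ≤ (o.P ω).encard from hω) (o.encard_le_of_finite hfin)
  let D : ℕ → Prop := fun k => ∀ᶠ ω in residual (B.V → Bool), (k : ℕ∞) ≤ (o.P ω).encard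
  have hD : ∀ᶠ ω in residual (B.V → Bool), ∀ k : ℕ, (k : ℕ∞) ≤ (o.P ω).encard ↔ D k := by
    rw [eventually_countable_forall]
    intro k
    rcases h01 k with h | h
    · filter_upwards [h] with ω hω
      exact ⟨fun _ => h, fun _ => hω⟩
    · filter_upwards [h] with ω hω
      refine ⟨fun h' => absurd h' hω, fun hDk => ?_⟩
      obtain ⟨ω', h1, h2⟩ := exists_of_residual (hDk.and h)
      exact absurd h1 h2
  let h : (B.V → Bool) ≃ₜ (B.V → Bool) :=
    { toFun := fun ω v => !(ω v)
      invFun := fun ω v => !(ω v)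
      left_inv := fun ω => by funext v; simp
      right_inv := fun ω => by funext v; simp
      continuous_toFun := continuous_pi fun v =>
        (continuous_of_discreteTopology (f := fun b : Bool => !b)).comp (continuous_apply v)
      continuous_invFun := continuous_pi fun v =>
        (continuous_of_discreteTopology (f := fun b : Bool => !b)).comp (continuous_apply v) }
  have hD' : ∀ᶠ ω in residual (B.V → Bool), ∀ k : ℕ, (k : ℕ∞) ≤ (o.P (neg ω)).encard ↔ D k := by
    have : Tendsto h (residual (B.V → Bool)) (residual (B.V → Bool)) := by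
      rw [Tendsto, h.residual_map_eq]
    exact this.eventually hD
  obtain ⟨ω, h1, h2⟩ := exists_of_residual (hD.and hD')
  refine ⟨ω, ENat.eq_of_forall_natCast_le_iff fun k => ?_⟩
  rw [h1, h2]

end Order

end Pool.Agent.Lib.MP_f8f5a4_an
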