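import Pool.Agent.Lib.MP_f8f5a4_an.Generic

set_option autoImplicit false

open Set Filter Topology

namespace Pool.Agent.Lib.MP_f8f5a4_an

namespace Order

variable {B : Diagram} (o : Order B)

theorem nonempty_base (B : Diagram) : Nonempty (Order B) := by
  have := countable_E B
  obtain ⟨ι, hι⟩ := exists_injective_nat B.E
  exact ⟨{
    lt := fun e f => B.range e = B.range f ∧ ι e < ι f
    irrefl := fun e h => lt_irrefl _ h.2
    trans := fun e f g h1 h2 => ⟨h1.1.trans h2.1, h1.2.trans h2.2⟩
    comparable_iff := fun e f => by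
      constructor
      · rintro (h | h | h)
        · exact h.1
        · rw [h]
        · exact h.1.symm
      · intro h
        rcases lt_trichotomy (ι e) (ι f) with h1 | h1 | h1
        · exact Or.inl ⟨h, h1⟩
        · exact Or.inr (Or.inl (hι h1))
        · exact Or.inr (Or.inr ⟨h.symm, h1⟩) }⟩

/-- If there are uncountably many minimal paths, then at some level two vertices are both
traversed by uncountably many of them. -/
theorem exists_two (ω : B.V → Bool) (h : ¬ (o.P ω).Countable) :
    ∃ n v v', v ≠ v' ∧ ¬ {x ∈ o.P ω | B.source (x n) = v}.Countable ∧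
      ¬ {x ∈ o.P ω | B.source (x n) = v'}.Countable := by
  have hcV := countable_V B
  by_contra hcon
  push Not at hcon
  have hex : ∀ n, ∃ w, ∀ v, v ≠ w → {x ∈ o.P ω | B.source (x n) = v}.Countable := by
    intro n
    by_cases hw : ∃ w, ¬ {x ∈ o.P ω | B.source (x n) = w}.Countable
    · obtain ⟨w, hw⟩ := hw
      exact ⟨w, fun v hv => hcon n w v hv.symm hw⟩
    · push Not at hw
      by_cases hne : Nonempty B.V
      · exact ⟨Classical.choice hne, fun v _ => hw v⟩
      · exfalso
        apply h
        have : (o.P ω) = ∅ := by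
          ext x
          exact ⟨fun _ => absurd ⟨B.source (x 0)⟩ hne, fun h => absurd h (notMem_empty x)⟩
        rw [this]
        exact countable_empty
  choose w hw using hex
  apply h
  have hsub : o.P ω ⊆ {x ∈ o.P ω | ∀ n, B.source (x n) = w n} ∪
      ⋃ (n : ℕ), ⋃ (v : B.V), ⋃ (_ : v ≠ w n), {x ∈ o.P ω | B.source (x n) = v} := by
    intro x hx
    by_cases hall : ∀ n, B.source (x n) = w n
    · exact Or.inl ⟨hx, hall⟩
    · right
      push Not at hall
      obtain ⟨n, hn⟩ := hall
      simp only [mem_iUnion]
      exact ⟨n, B.source (x n), hn, hx, rfl⟩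
  refine Countable.mono hsub (Countable.union ?_ ?_)
  · refine Set.Subsingleton.countable ?_
    intro x hx y hy
    refine ext_path fun i => ?_
    exact (o.flip ω).eq_below (i + 1) (fun j _ => hx.1 j) (fun j _ => hy.1 j)
      (by rw [hx.2, hy.2]) i (Nat.lt_succ_self i)
  · exact countable_iUnion fun n => countable_iUnion fun v => countable_iUnion fun hv => hw n v hv

/-- If some choice has uncountably many minimal paths, then for some choice both the minimal and
the maximal paths are uncountable. -/
theorem exists_split (ω : B.V → Bool) (h : ¬ (o.P ω).Countable) :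
    ∃ ω' : B.V → Bool, ¬ (o.P ω').Countable ∧ ¬ (o.P (neg ω')).Countable := by
  classical
  obtain ⟨n, v, v', hvv, hv, hv'⟩ := o.exists_two ω h
  let F : Set B.V := {u | ∃ x ∈ o.P ω, ∃ j, n < j ∧ B.source (x j) = u ∧ B.source (x n) = v'}
  let ω' : B.V → Bool := fun u => if u ∈ F then !(ω u) else ω u
  refine ⟨ω', ?_, ?_⟩
  · obtain ⟨f, hf1, hf2⟩ := o.transfer (S := {x ∈ o.P ω | B.source (x n) = v}) (ω := ω) (ω' := ω')
      n (fun x hx => hx.1) (by
        rintro x ⟨hx, hxv⟩ i hi
        have hnF : B.range (x i) ∉ F := by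
          rintro ⟨y, hy, j, hj, h1, h2⟩
          have hji : j = i + 1 := by
            have := congrArg B.level h1
            rwa [level_source, path_step, level_source] at this
          subst hji
          rw [path_step] at h1
          have := (o.flip ω).eq_below (i + 1) (fun j _ => hy j) (fun j _ => hx j) h1 n (by omega)
          rw [← this, h2] at hxv
          exact hvv hxv.symm
        have : ω (B.range (x i)) = ω' (B.range (x i)) := (if_neg hnF).symm
        exact (o.isMin_congr this).mp (hx i))
    exact fun hc => hv (hf1.countable_of_injOn hf2 hc)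
  · obtain ⟨f, hf1, hf2⟩ := o.transfer (S := {x ∈ o.P ω | B.source (x n) = v'}) (ω := ω)
      (ω' := neg ω') n (fun x hx => hx.1) (by
        rintro x ⟨hx, hxv⟩ i hi
        have hF : B.range (x i) ∈ F := ⟨x, hx, i + 1, by omega, (path_step x i).symm, hxv⟩
        have : ω (B.range (x i)) = neg ω' (B.range (x i)) := by
          show ω (B.range (x i)) = !(if B.range (x i) ∈ F then !(ω (B.range (x i)))
            else ω (B.range (x i)))
          rw [if_pos hF, Bool.not_not]
        exact (o.isMin_congr this).mp (hx i))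
    exact fun hc => hv' (hf1.countable_of_injOn hf2 hc)

theorem isClosed_P (ω : B.V → Bool) : IsClosed (o.P ω) := isClosed_minPaths _

theorem equiv_of_countable {α : Type} {s t : Set α} (hs : s.Countable) (ht : t.Countable)
    (h : s.encard = t.encard) : Nonempty (s ≃ t) := by
  rw [← Cardinal.eq]
  have h1 : Cardinal.mk s ≤ Cardinal.aleph0 := by
    rwa [Cardinal.le_aleph0_iff_set_countable]
  have h2 : Cardinal.mk t ≤ Cardinal.aleph0 := by
    rwa [Cardinal.le_aleph0_iff_set_countable]
  exact Cardinal.toENat_injOn h1 h2 h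

theorem equiv_of_uncountable (ω ω' : B.V → Bool) (h1 : ¬ (o.P ω).Countable)
    (h2 : ¬ (o.P ω').Countable) : Nonempty (o.P ω ≃ o.P ω') := by
  have : PolishSpace (o.P ω) := (o.isClosed_P ω).polishSpace
  have : PolishSpace (o.P ω') := (o.isClosed_P ω').polishSpace
  exact ⟨(PolishSpace.measurableEquivOfNotCountable h1 h2).toEquiv⟩

/-- Every generalized Bratteli diagram admits an order generating a Borel Vershik map. -/
theorem exists_order (B : Diagram) : ∃ o : Order B, o.GeneratesBorelVershikMap := by
  obtain ⟨o⟩ := nonempty_base B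
  suffices h : ∃ ω : B.V → Bool, Nonempty (o.P (neg ω) ≃ o.P ω) by
    obtain ⟨ω, hω⟩ := h
    refine ⟨o.flip ω, generates_of_equiv _ ?_⟩
    rw [o.maxPaths_flip ω]
    exact hω
  by_cases hc : ∀ ω : B.V → Bool, (o.P ω).Countable
  · obtain ⟨ω, hω⟩ := exists_generic o
    exact ⟨ω, equiv_of_countable (hc _) (hc _) hω.symm⟩
  · push Not at hc
    obtain ⟨ω, hω⟩ := hc
    obtain ⟨ω', h1, h2⟩ := o.exists_split ω hω
    exact ⟨ω', o.equiv_of_uncountable _ _ h2 h1⟩

end Order

end Pool.Agent.Lib.MP_f8f5a4_an
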