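import Pool.Agent.Lib.MP_f8f5a4_an.Borel

set_option autoImplicit false

open Set Filter Topology

namespace Pool.Agent.Lib.MP_f8f5a4_an

/-! ### Topological preliminaries -/

section Top

variable {Ω : Type*} [TopologicalSpace Ω]

theorem residual_not_frontier {O : Set Ω} (hO : IsOpen O) :
    ∀ᶠ ω in residual Ω, ω ∈ closure O → ω ∈ O := by
  have h1 : IsOpen (frontier O)ᶜ := isClosed_frontier.isOpen_compl
  have h2 : Dense (frontier O)ᶜ := by
    rw [← interior_eq_empty_iff_dense_compl]
    rw [← frontier_compl]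
    exact interior_frontier hO.isClosed_compl
  filter_upwards [residual_of_dense_open h1 h2] with ω hω hcl
  by_contra hno
  apply hω
  rw [hO.frontier_eq]
  exact ⟨hcl, hno⟩

/-- The Baire envelope of a set. -/
theorem exists_envelope [SecondCountableTopology Ω] (A : Set Ω) :
    ∃ G : Set Ω, IsOpen G ∧ (∀ᶠ ω in residual Ω, ω ∈ A → ω ∈ G) ∧
      ∀ U : Set Ω, IsOpen U → U ⊆ G → U.Nonempty → ¬ ∀ᶠ ω in residual Ω, ω ∈ U → ω ∉ A := by
  let b := TopologicalSpace.countableBasis Ω
  let 𝓜 : Set (Set Ω) := {U ∈ b | ∀ᶠ ω in residual Ω, ω ∈ U → ω ∉ A}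
  have hcount : 𝓜.Countable := (TopologicalSpace.countable_countableBasis Ω).mono (sep_subset _ _)
  let M := ⋃₀ 𝓜
  have hMo : IsOpen M := isOpen_sUnion fun U hU =>
    TopologicalSpace.isOpen_of_mem_countableBasis hU.1
  have hM : ∀ᶠ ω in residual Ω, ω ∈ M → ω ∉ A := by
    have h1 : ∀ᶠ ω in residual Ω, ∀ U ∈ 𝓜, ω ∈ U → ω ∉ A :=
      (eventually_countable_ball hcount).mpr fun U hU => hU.2
    filter_upwards [h1] with ω hω hωM
    obtain ⟨U, hU, hωU⟩ := hωM
    exact hω U hU hωU
  refine ⟨(closure M)ᶜ, isClosed_closure.isOpen_compl, ?_, ?_⟩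
  · filter_upwards [hM, residual_not_frontier hMo] with ω h1 h2 hA hcl
    exact h1 (h2 hcl) hA
  · intro U hU hUG hne hres
    obtain ⟨x, hx⟩ := hne
    obtain ⟨v, hv, hxv, hvU⟩ :=
      (TopologicalSpace.isBasis_countableBasis Ω).exists_subset_of_mem_open hx hU
    have hvM : v ∈ 𝓜 := ⟨hv, by filter_upwards [hres] with ω h1 h2 using h1 (hvU h2)⟩
    exact hUG hx (subset_closure ⟨v, hvM, hxv⟩)

end Top

/-- The zero-one law for subsets of `V → Bool` which are invariant under finite changes and
almost equal to an open set. -/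
theorem zero_one {V : Type*} [Countable V] {A O : Set (V → Bool)} (hO : IsOpen O)
    (hAO : ∀ᶠ ω in residual (V → Bool), ω ∈ A ↔ ω ∈ O)
    (htail : ∀ ω ω' : V → Bool, {v | ω v ≠ ω' v}.Finite → ω ∈ A → ω' ∈ A) :
    (∀ᶠ ω in residual (V → Bool), ω ∈ A) ∨ ∀ᶠ ω in residual (V → Bool), ω ∉ A := by
  classical
  rcases O.eq_empty_or_nonempty with h | ⟨ω0, hω0⟩
  · right
    filter_upwards [hAO] with ω hω hA
    have := hω.mp hA
    rw [h] at this
    exact this
  left
  have hbasic : ∀ (U : Set (V → Bool)) (ω : V → Bool), IsOpen U → ω ∈ U →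
      ∃ F : Finset V, ∀ ω' : V → Bool, (∀ v ∈ F, ω' v = ω v) → ω' ∈ U := by
    intro U ω hU hω
    obtain ⟨F, u, hu, hFu⟩ := isOpen_pi_iff.mp hU ω hω
    refine ⟨F, fun ω' h => hFu fun v hv => ?_⟩
    rw [h v hv]
    exact (hu v hv).2
  have hdense : Dense O := by
    rw [dense_iff_inter_open]
    rintro U hU ⟨ω1, hω1⟩
    obtain ⟨F0, hF0⟩ := hbasic O ω0 hO hω0
    obtain ⟨F1, hF1⟩ := hbasic U ω1 hU hω1
    let F := F0 ∪ F1
    let D : V → Bool := fun v => if v ∈ F then xor (ω0 v) (ω1 v) else false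
    let h : (V → Bool) ≃ₜ (V → Bool) :=
      { toFun := fun ω v => xor (ω v) (D v)
        invFun := fun ω v => xor (ω v) (D v)
        left_inv := fun ω => by funext v; simp
        right_inv := fun ω => by funext v; simp
        continuous_toFun := continuous_pi fun v =>
          (continuous_of_discreteTopology (f := fun b : Bool => xor b (D v))).comp
            (continuous_apply v)
        continuous_invFun := continuous_pi fun v =>
          (continuous_of_discreteTopology (f := fun b : Bool => xor b (D v))).comp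
            (continuous_apply v) }
    have hres : ∀ᶠ ω in residual (V → Bool), h ω ∈ A ↔ h ω ∈ O := by
      have : Tendsto h (residual (V → Bool)) (residual (V → Bool)) := by
        rw [Tendsto, h.residual_map_eq]
      exact this.eventually hAO
    have hopen : IsOpen {ω : V → Bool | ∀ v ∈ F, ω v = ω1 v} := by
      have : {ω : V → Bool | ∀ v ∈ F, ω v = ω1 v} = ⋂ v ∈ F, {ω : V → Bool | ω v = ω1 v} := by
        ext; simp
      rw [this]
      refine isOpen_biInter_finset fun v _ => ?_
      have hc : Continuous (fun ω : V → Bool => ω v) := continuous_apply v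
      exact (isOpen_discrete {ω1 v}).preimage hc
    obtain ⟨ω, ⟨g1, g2⟩, g3⟩ := (dense_of_mem_residual (hAO.and hres)).inter_open_nonempty _ hopen
      ⟨ω1, fun v _ => rfl⟩ |>.imp fun ω hω => And.intro hω.2 hω.1
    refine ⟨ω, hF1 ω fun v hv => g3 v (Finset.mem_union_right _ hv), ?_⟩
    apply g1.mp
    have e1 : h ω ∈ O := by
      apply hF0
      intro v hv
      have hvF : v ∈ F := Finset.mem_union_left _ hv
      show xor (ω v) (D v) = ω0 v
      have : D v = xor (ω0 v) (ω1 v) := if_pos hvF
      rw [this, g3 v hvF]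
      cases ω0 v <;> cases ω1 v <;> rfl
    have e2 : h ω ∈ A := g2.mpr e1
    refine htail (h ω) ω ?_ e2
    refine F.finite_toSet.subset ?_
    intro v hv
    by_contra hvF
    apply hv
    show xor (ω v) (D v) = ω v
    have : D v = false := if_neg hvF
    rw [this]
    simp
  filter_upwards [hAO, residual_of_dense_open hO hdense] with ω h1 h2
  exact h1.mpr h2

end Pool.Agent.Lib.MP_f8f5a4_an
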